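import Pool.Agent.helper81.CW.Spec2

/-!
# cw:MU1 - Chernoff bound with two parameters
-/

open MeasureTheory Set
open scoped ENNReal Pointwise

namespace Pool.Agent.helper81.CW

/-- the one-dimensional weight -/
noncomputable def MU1_f (α β : ℝ) (t : ℝ) : ℝ :=
  Real.exp (-(α * (max t 0) ^ 2 + β * (min t 0) ^ 2))

lemma MU1_f_pos (α β t : ℝ) : 0 < MU1_f α β t := Real.exp_pos _

lemma MU1_int (α β : ℝ) (hα : 0 < α) (hβ : 0 < β) :
    Integrable (MU1_f α β) ∧
      ∫ t, MU1_f α β t = Real.sqrt (Real.pi / β) / 2 + Real.sqrt (Real.pi / α) / 2 := by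
  have e1 : ∀ t ∈ Ioi (0 : ℝ), MU1_f α β t = Real.exp (-α * t ^ 2) := by
    intro t ht
    have ht' : 0 < t := ht
    unfold MU1_f
    rw [max_eq_left ht'.le, min_eq_right ht'.le]
    congr 1
    ring
  have e2 : ∀ t ∈ Iic (0 : ℝ), MU1_f α β t = Real.exp (-β * t ^ 2) := by
    intro t ht
    have ht' : t ≤ 0 := ht
    unfold MU1_f
    rw [max_eq_right ht', min_eq_left ht']
    congr 1
    ring
  have i1 : IntegrableOn (MU1_f α β) (Ioi 0) := by
    rw [integrableOn_congr_fun e1 measurableSet_Ioi]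
    exact (integrable_exp_neg_mul_sq hα).integrableOn
  have i2 : IntegrableOn (MU1_f α β) (Iic 0) := by
    rw [integrableOn_congr_fun e2 measurableSet_Iic]
    exact (integrable_exp_neg_mul_sq hβ).integrableOn
  refine ⟨?_, ?_⟩
  · rw [← integrableOn_univ, ← Iic_union_Ioi (a := (0 : ℝ))]
    exact i2.union i1
  · rw [← intervalIntegral.integral_Iic_add_Ioi i2 i1,
      setIntegral_congr_fun measurableSet_Ioi e1, setIntegral_congr_fun measurableSet_Iic e2,
      integral_gaussian_Ioi]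
    congr 1
    have h := integral_comp_neg_Iic (0 : ℝ) (fun t : ℝ => Real.exp (-β * t ^ 2))
    simp only [neg_sq, neg_zero] at h
    rw [h, integral_gaussian_Ioi]

lemma MU1_prod (n : ℕ) (α β : ℝ) (z : E n) :
    ∏ i, MU1_f α β (z i) = Real.exp (-(α * pn z ^ 2 + β * nn z ^ 2)) := by
  unfold MU1_f pn nn
  rw [← Real.exp_sum]
  congr 1
  rw [Real.sq_sqrt (Finset.sum_nonneg fun i _ => sq_nonneg _),
    Real.sq_sqrt (Finset.sum_nonneg fun i _ => sq_nonneg _), Finset.mul_sum, Finset.mul_sum,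
    ← Finset.sum_add_distrib, ← Finset.sum_neg_distrib]

lemma MU1_bound (n : ℕ) (α β P Q : ℝ) (hα : 0 < α) (hβ : 0 < β) (hP : 0 < P) (hQ : 0 < Q) :
    volume {z : E n | pn z ≤ P ∧ nn z ≤ Q} ≤ ENNReal.ofReal (Real.exp (α * P ^ 2 + β * Q ^ 2) *
      (Real.sqrt (Real.pi / β) / 2 + Real.sqrt (Real.pi / α) / 2) ^ n) := by
  obtain ⟨hint, hval⟩ := MU1_int α β hα hβ
  set K : ℝ := Real.exp (α * P ^ 2 + β * Q ^ 2) with hK
  have hKpos : 0 < K := Real.exp_pos _
  set g : E n → ℝ := fun z => K * ∏ i, MU1_f α β (z i) with hg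
  have hg0 : ∀ z, 0 ≤ g z := by
    intro z
    exact mul_nonneg hKpos.le (Finset.prod_nonneg fun i _ => (MU1_f_pos _ _ _).le)
  have hone : ∀ z ∈ {z : E n | pn z ≤ P ∧ nn z ≤ Q}, 1 ≤ g z := by
    rintro z ⟨h1, h2⟩
    rw [hg]
    simp only
    rw [MU1_prod, hK, ← Real.exp_add]
    apply Real.one_le_exp
    have hp0 : 0 ≤ pn z := Real.sqrt_nonneg _
    have hn0 : 0 ≤ nn z := Real.sqrt_nonneg _
    have h3 : pn z ^ 2 ≤ P ^ 2 := pow_le_pow_left₀ hp0 h1 2
    have h4 : nn z ^ 2 ≤ Q ^ 2 := pow_le_pow_left₀ hn0 h2 2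
    nlinarith [mul_le_mul_of_nonneg_left h3 hα.le, mul_le_mul_of_nonneg_left h4 hβ.le]
  -- the integral of `g`
  have hint2 : Integrable (fun x : Fin n → ℝ => ∏ i, MU1_f α β (x i)) :=
    Integrable.fintype_prod (fun _ => hint)
  have hgint : Integrable g := by
    rw [← (PiLp.volume_preserving_toLp (Fin n)).integrable_comp_emb
      (MeasurableEquiv.toLp 2 (Fin n → ℝ)).measurableEmbedding]
    exact hint2.const_mul K
  have hgval : ∫ z, g z = K * (Real.sqrt (Real.pi / β) / 2 + Real.sqrt (Real.pi / α) / 2) ^ n := by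
    rw [← (PiLp.volume_preserving_toLp (Fin n)).integral_comp
      (MeasurableEquiv.toLp 2 (Fin n → ℝ)).measurableEmbedding]
    change ∫ x : Fin n → ℝ, K * ∏ i, MU1_f α β (x i) = _
    rw [integral_const_mul, integral_fintype_prod_volume_eq_pow, hval, Fintype.card_fin]
  rw [← hgval, ofReal_integral_eq_lintegral_ofReal hgint (Filter.Eventually.of_forall hg0)]
  calc volume {z : E n | pn z ≤ P ∧ nn z ≤ Q}
      ≤ volume {z : E n | 1 ≤ ENNReal.ofReal (g z)} := by
        apply measure_mono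
        intro z hz
        change 1 ≤ ENNReal.ofReal (g z)
        rw [ENNReal.one_le_ofReal]
        exact hone z hz
    _ = 1 * volume {z : E n | 1 ≤ ENNReal.ofReal (g z)} := (one_mul _).symm
    _ ≤ ∫⁻ z, ENNReal.ofReal (g z) :=
        mul_meas_ge_le_lintegral₀ hgint.aestronglyMeasurable.aemeasurable.ennreal_ofReal 1

theorem MU1 : MU1_stmt := by
  intro n P Q hn hP hQ
  set a : ℝ := P ^ ((2 : ℝ) / 3) with ha
  set b : ℝ := Q ^ ((2 : ℝ) / 3) with hb
  have hapos : 0 < a := Real.rpow_pos_of_pos hP _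
  have hbpos : 0 < b := Real.rpow_pos_of_pos hQ _
  have ha3 : a ^ 3 = P ^ 2 := by
    rw [ha, ← Real.rpow_natCast, ← Real.rpow_mul hP.le]
    norm_num
  have hb3 : b ^ 3 = Q ^ 2 := by
    rw [hb, ← Real.rpow_natCast, ← Real.rpow_mul hQ.le]
    norm_num
  have hn0 : (0 : ℝ) < n := by exact_mod_cast hn
  set α : ℝ := n / (2 * (a + b) * a ^ 2) with hα
  set β : ℝ := n / (2 * (a + b) * b ^ 2) with hβ
  have hαpos : 0 < α := by positivity
  have hβpos : 0 < β := by positivity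
  refine (MU1_bound n α β P Q hαpos hβpos hP hQ).trans (le_of_eq ?_)
  congr 1
  have hab : 0 < a + b := by positivity
  have e1 : α * P ^ 2 + β * Q ^ 2 = n / 2 := by
    rw [← ha3, ← hb3, hα, hβ]
    field_simp
  have e2 : Real.sqrt (Real.pi / α) = a * (Real.sqrt (2 * Real.pi) * Real.sqrt (a + b) / Real.sqrt n) := by
    rw [hα, Real.sqrt_eq_iff_mul_self_eq (by positivity) (by positivity)]
    have h1 := Real.mul_self_sqrt (by positivity : (0 : ℝ) ≤ 2 * Real.pi)
    have h2 := Real.mul_self_sqrt hab.le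
    have h3 := Real.mul_self_sqrt hn0.le
    have : a * (Real.sqrt (2 * Real.pi) * Real.sqrt (a + b) / Real.sqrt n) *
        (a * (Real.sqrt (2 * Real.pi) * Real.sqrt (a + b) / Real.sqrt n)) =
        a * a * ((Real.sqrt (2 * Real.pi) * Real.sqrt (2 * Real.pi)) *
          (Real.sqrt (a + b) * Real.sqrt (a + b)) / (Real.sqrt n * Real.sqrt n)) := by
      ring
    rw [this, h1, h2, h3]
    field_simp
  have e3 : Real.sqrt (Real.pi / β) = b * (Real.sqrt (2 * Real.pi) * Real.sqrt (a + b) / Real.sqrt n) := by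
    rw [hβ, Real.sqrt_eq_iff_mul_self_eq (by positivity) (by positivity)]
    have h1 := Real.mul_self_sqrt (by positivity : (0 : ℝ) ≤ 2 * Real.pi)
    have h2 := Real.mul_self_sqrt hab.le
    have h3 := Real.mul_self_sqrt hn0.le
    have : b * (Real.sqrt (2 * Real.pi) * Real.sqrt (a + b) / Real.sqrt n) *
        (b * (Real.sqrt (2 * Real.pi) * Real.sqrt (a + b) / Real.sqrt n)) =
        b * b * ((Real.sqrt (2 * Real.pi) * Real.sqrt (2 * Real.pi)) *
          (Real.sqrt (a + b) * Real.sqrt (a + b)) / (Real.sqrt n * Real.sqrt n)) := by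
      ring
    rw [this, h1, h2, h3]
    field_simp
  have e4 : Real.exp ((n : ℝ) / 2) = (Real.sqrt (Real.exp 1)) ^ n := by
    rw [Real.sqrt_eq_rpow, ← Real.exp_one_rpow ((n : ℝ) / 2), ← Real.rpow_natCast, ← Real.rpow_mul
      (Real.exp_pos 1).le]
    congr 1
    ring
  have e5 : (n : ℝ) ^ ((n : ℝ) / 2) = (Real.sqrt n) ^ n := by
    rw [Real.sqrt_eq_rpow, ← Real.rpow_natCast (_ ^ _) n, ← Real.rpow_mul hn0.le]
    congr 1
    ring
  have e6 : (a + b) ^ ((3 : ℝ) / 2) = (a + b) * Real.sqrt (a + b) := by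
    rw [Real.sqrt_eq_rpow]
    nth_rewrite 2 [← Real.rpow_one (a + b)]
    rw [← Real.rpow_add hab]
    norm_num
  have e7 : Real.sqrt (2 * Real.pi * Real.exp 1) =
      Real.sqrt (2 * Real.pi) * Real.sqrt (Real.exp 1) := Real.sqrt_mul (by positivity) _
  rw [e1, e2, e3, e4, e5, e6, e7, ← mul_pow, ← div_pow]
  congr 1
  ring

end Pool.Agent.helper81.CW

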